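import Mathlib
import Pool.Agent.H46.Cf1

namespace Pool.Agent.Results.MP_9cf723_co.Cone

open MvPolynomial Module

/-- Real polynomials in `x, y, z`. -/
abbrev Pl := MvPolynomial (Fin 3) ℝ

/-- Points of `ℝ³`. -/
abbrev Pt := Fin 3 → ℝ

variable {W : Type} [Fintype W] [LinearOrder W]

/-- `I¹_ψ(p)`: affine forms `Ax + By + Cz + D` vanishing at `p v` for all `v ∈ ψ`. -/
def I1 (p : W → Pt) (ψ : Finset W) : Set Pl :=
  {l | (∃ (A : Fin 3 → ℝ) (D : ℝ), l = ∑ i, C (A i) * X i + C D) ∧ ∀ v ∈ ψ, eval (p v) l = 0}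

/-- `I^s_ψ(p)`: the span of the `s`-th powers, and `P_s` for the empty simplex. -/
noncomputable def Is (s : ℕ) (p : W → Pt) (ψ : Finset W) : Submodule ℝ Pl :=
  if ψ = ∅ then restrictTotalDegree (Fin 3) ℝ s
  else Submodule.span ℝ ((fun l => l ^ s) '' I1 p ψ)

/-- The incidence number `Sign(θ, θ ∪ {v})` for `v ∉ θ`, simplices being oriented by the order of
the vertices. -/
noncomputable def sgn (v : W) (θ : Finset W) : ℝ := (-1) ^ (θ.filter (· < v)).card

/-- The boundary operator: `(∂c)_θ = ∑_ψ Sign(θ, ψ) c_ψ`. -/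
noncomputable def bd : (Finset W → Pl) →ₗ[ℝ] (Finset W → Pl) :=
  LinearMap.pi fun θ => ∑ v ∈ θᶜ, sgn v θ • LinearMap.proj (insert v θ)

/-- The term of the cofactor complex in degree `k - 1`: the direct sum of the `I^s_ψ` over the
simplices `ψ` of `Δ` with `k` vertices. -/
noncomputable def Ch (s : ℕ) (p : W → Pt) (Δ : Finset (Finset W)) (k : ℕ) :
    Submodule ℝ (Finset W → Pl) :=
  Submodule.pi Set.univ fun ψ => if ψ ∈ Δ ∧ ψ.card = k then Is s p ψ else ⊥

/-- The cycles in degree `k - 1`. -/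
noncomputable def Cyc (s : ℕ) (p : W → Pt) (Δ : Finset (Finset W)) (k : ℕ) :
    Submodule ℝ (Finset W → Pl) := Ch s p Δ k ⊓ LinearMap.ker bd

/-- The Betti number `β_{k-1}` of `K^{s-1}_s(Δ; p)`: dimension of cycles modulo boundaries. -/
noncomputable def betti (s : ℕ) (p : W → Pt) (Δ : Finset (Finset W)) (k : ℕ) : ℕ :=
  finrank ℝ (↥(Cyc s p Δ k) ⧸ ((Ch s p Δ (k + 1)).map bd).submoduleOf (Cyc s p Δ k))

/-- A simplicial 2-complex with `F ≠ ∅` (the empty simplex is included). -/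
def IsCx (Δ : Finset (Finset W)) : Prop :=
  (∀ ψ ∈ Δ, ∀ θ ⊆ ψ, θ ∈ Δ) ∧ (∀ ψ ∈ Δ, ψ.card ≤ 3) ∧ ∃ σ ∈ Δ, σ.card = 3

/-- The truncated cone `(w * Δ)²`. -/
def cone (w : W) (Δ : Finset (Finset W)) : Finset (Finset W) :=
  Δ ∪ (Δ.filter fun ψ => ψ.card ≤ 2).image (insert w)

/-- `p w` lies in no proper affine subspace spanned by points `p v`, `v` a vertex of `Δ`. -/
def GenPos (p : W → Pt) (w : W) (Δ : Finset (Finset W)) : Prop :=
  ∀ T : Set W, (∀ v ∈ T, {v} ∈ Δ) → affineSpan ℝ (p '' T) ≠ ⊤ → p w ∉ affineSpan ℝ (p '' T)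

/-! ### Proofs -/

open Pool.Agent.H46.Cf

noncomputable def U (p : W → Pt) (ψ : Finset W) : Submodule ℝ Pl where
  carrier := I1 p ψ
  zero_mem' := ⟨⟨0, 0, by simp⟩, by simp⟩
  add_mem' := by
    rintro a b ⟨⟨A, D, rfl⟩, h1⟩ ⟨⟨A', D', rfl⟩, h2⟩
    refine ⟨⟨A + A', D + D', ?_⟩, fun v hv => by rw [map_add, h1 v hv, h2 v hv, add_zero]⟩
    simp only [Pi.add_apply, map_add, add_mul, Finset.sum_add_distrib]; ring
  smul_mem' := by
    rintro c a ⟨⟨A, D, rfl⟩, h1⟩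
    refine ⟨⟨c • A, c * D, ?_⟩, fun v hv => by rw [smul_eval, h1 v hv, mul_zero]⟩
    simp only [Pi.smul_apply, smul_eq_mul, map_mul, smul_eq_C_mul, mul_add, Finset.mul_sum, mul_assoc]

theorem pow_le_restrict (p : W → Pt) (ψ : Finset W) (s : ℕ) :
    U p ψ ^ s ≤ restrictTotalDegree (Fin 3) ℝ s := by
  rw [← span_pow, Submodule.span_le]
  rintro _ ⟨l, ⟨⟨A, D, rfl⟩, -⟩, rfl⟩
  rw [SetLike.mem_coe, mem_restrictTotalDegree]
  refine (totalDegree_pow _ _).trans ?_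
  have : (∑ i, C (A i) * X i + C D : Pl).totalDegree ≤ 1 := by
    refine (totalDegree_add _ _).trans (max_le (totalDegree_finsetSum_le fun i _ => ?_) (by simp))
    exact (totalDegree_mul _ _).trans (by simp)
  nlinarith

theorem Is_eq (s : ℕ) (p : W → Pt) (ψ : Finset W) : Is s p ψ = U p ψ ^ s := by
  unfold Is
  split_ifs with h
  · subst h
    refine le_antisymm ?_ (pow_le_restrict p ∅ s)
    have h1 : (1 : Pl) ∈ U p ∅ := ⟨⟨0, 1, by simp⟩, by simp⟩
    have hX : ∀ i, (X i : Pl) ∈ U p ∅ := fun i =>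
      ⟨⟨Pi.single i 1, 0, by simp [Pi.single_apply, apply_ite C]⟩, by simp⟩
    intro f hf
    rw [mem_restrictTotalDegree] at hf
    rw [f.as_sum]
    refine Submodule.sum_mem _ fun m hm => ?_
    have hd : m 0 + m 1 + m 2 ≤ s := by
      have := (le_totalDegree hm).trans hf
      rwa [Finsupp.sum_fintype _ _ (by simp), Fin.sum_univ_three] at this
    obtain ⟨r, rfl⟩ := Nat.exists_eq_add_of_le hd
    have : monomial m (coeff m f) = coeff m f • (X 0 ^ m 0 * X 1 ^ m 1 * X 2 ^ m 2 * 1 ^ r : Pl) := by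
      rw [monomial_eq, Finsupp.prod_fintype _ _ (by simp), Fin.prod_univ_three, smul_eq_C_mul]; simp
    rw [this, pow_add, pow_add, pow_add]
    exact Submodule.smul_mem _ _ (Submodule.mul_mem_mul (Submodule.mul_mem_mul (Submodule.mul_mem_mul
      (Submodule.pow_mem_pow _ (hX 0) _) (Submodule.pow_mem_pow _ (hX 1) _))
      (Submodule.pow_mem_pow _ (hX 2) _)) (Submodule.pow_mem_pow _ h1 _))
  · exact span_pow (U p ψ) s

theorem mem_Ch {s : ℕ} {p : W → Pt} {Δ : Finset (Finset W)} {k : ℕ} {c : Finset W → Pl} :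
    c ∈ Ch s p Δ k ↔ ∀ ψ, c ψ ∈ U p ψ ^ s ∧ (c ψ ≠ 0 → ψ ∈ Δ ∧ ψ.card = k) := by
  simp only [Ch, Submodule.mem_pi, Set.mem_univ, true_imp_iff, Is_eq]
  refine forall_congr' fun ψ => ?_
  split_ifs with h
  · simp [h]
  · rw [Submodule.mem_bot]
    constructor
    · intro h0; simp [h0]
    · intro h0; by_contra h1; exact h (h0.2 h1)

theorem U_mono (p : W → Pt) {θ ψ : Finset W} (h : θ ⊆ ψ) (s : ℕ) : U p ψ ^ s ≤ U p θ ^ s :=
  pow_le_pow_left' (fun _ hl => ⟨hl.1, fun v hv => hl.2 v (h hv)⟩) s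

theorem bd_apply (c : Finset W → Pl) (θ : Finset W) :
    bd c θ = ∑ v ∈ θᶜ, sgn v θ • c (insert v θ) := by
  simp [bd]

theorem bd_mem {s : ℕ} {p : W → Pt} {Δ : Finset (Finset W)} (hΔ : ∀ ψ ∈ Δ, ∀ θ ⊆ ψ, θ ∈ Δ) {k : ℕ}
    {c : Finset W → Pl} (hc : c ∈ Ch s p Δ (k + 1)) : bd c ∈ Ch s p Δ k := by
  rw [mem_Ch] at hc ⊢
  intro θ
  rw [bd_apply]
  refine ⟨Submodule.sum_mem _ fun v _ => Submodule.smul_mem _ _
    (U_mono p (Finset.subset_insert v θ) s (hc _).1), fun h => ?_⟩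
  obtain ⟨v, hv, h1⟩ := Finset.exists_ne_zero_of_sum_ne_zero h
  obtain ⟨h2, h3⟩ := (hc _).2 (right_ne_zero_of_smul h1)
  rw [Finset.card_insert_of_notMem (Finset.mem_compl.1 hv)] at h3
  exact ⟨hΔ _ h2 _ (Finset.subset_insert v θ), by omega⟩

theorem bd_zero {s : ℕ} {p : W → Pt} {Δ : Finset (Finset W)}
    {c : Finset W → Pl} (hc : c ∈ Ch s p Δ 0) : bd c = 0 := by
  rw [mem_Ch] at hc
  funext θ
  rw [bd_apply]
  refine Finset.sum_eq_zero fun v _ => ?_
  have : c (insert v θ) = 0 := by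
    by_contra h
    have := ((hc _).2 h).2
    simp at this
  simp [this]

theorem sgn_sq (v : W) (θ : Finset W) : sgn v θ * sgn v θ = 1 := by
  simp [sgn, ← mul_pow]

theorem sgn_anti {u v : W} {θ : Finset W} (huv : u ≠ v) (hu : u ∉ θ) (hv : v ∉ θ) :
    sgn v (insert u θ) * sgn u (insert v θ) = -(sgn v θ * sgn u θ) := by
  have e : ∀ a b : W, a ∉ θ → sgn b (insert a θ) = (if a < b then -1 else 1) * sgn b θ := by
    intro a b ha
    unfold sgn
    rw [Finset.filter_insert]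
    split_ifs
    · rw [Finset.card_insert_of_notMem (by simp [ha]), pow_succ]; ring
    · ring
  rw [e u v hu, e v u hv]
  rcases lt_or_gt_of_ne huv with h | h
  · simp [h, h.not_gt]
  · simp [h, h.not_gt]

theorem bd_bd (c : Finset W → Pl) : bd (bd c) = 0 := by
  funext θ
  let f : W → W → Pl := fun v u => if u ≠ v then
    (sgn v θ * sgn u (insert v θ)) • c (insert u (insert v θ)) else 0
  have h1 : bd (bd c) θ = ∑ v ∈ θᶜ, ∑ u ∈ θᶜ, f v u := by
    rw [bd_apply]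
    refine Finset.sum_congr rfl fun v _ => ?_
    rw [bd_apply, Finset.smul_sum, Finset.compl_insert, ← Finset.filter_ne', Finset.sum_filter]
    simp only [f, smul_smul]
  have h2 : ∑ v ∈ θᶜ, ∑ u ∈ θᶜ, f v u = -∑ v ∈ θᶜ, ∑ u ∈ θᶜ, f v u := by
    conv_lhs => rw [Finset.sum_comm]
    simp only [← Finset.sum_neg_distrib]
    refine Finset.sum_congr rfl fun v hv => Finset.sum_congr rfl fun u hu => ?_
    by_cases h : u = v
    · simp [f, h]
    · have h3 := sgn_anti h (Finset.mem_compl.1 hu) (Finset.mem_compl.1 hv)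
      have h4 : sgn u θ * sgn v (insert u θ) = -(sgn v θ * sgn u (insert v θ)) := by
        have a := sgn_sq u θ
        have b := sgn_sq u (insert v θ)
        linear_combination (sgn u θ * sgn u (insert v θ)) * h3 - sgn u θ * sgn v (insert u θ) * b
          - sgn v θ * sgn u (insert v θ) * a
      simp only [f, if_pos h, if_pos (Ne.symm h), h4, Finset.insert_comm v u θ, neg_smul]
  rw [h1]
  exact self_eq_neg.1 h2

noncomputable def hom (w : W) (c : Finset W → Pl) : Finset W → Pl := fun ψ =>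
  if w ∈ ψ then sgn w (ψ.erase w) • c (ψ.erase w) else 0

theorem bd_hom (w : W) (c : Finset W → Pl) : bd (hom w c) + hom w (bd c) = c := by
  funext θ
  rw [Pi.add_apply, bd_apply]
  by_cases hw : w ∈ θ
  · obtain ⟨η, hη, rfl⟩ : ∃ η, w ∉ η ∧ θ = insert w η :=
      ⟨θ.erase w, by simp, (Finset.insert_erase hw).symm⟩
    have e1 : hom w (bd c) (insert w η) = c (insert w η) +
        ∑ v ∈ (insert w η)ᶜ, (sgn w η * sgn v η) • c (insert v η) := by
      simp only [hom, if_pos hw, Finset.erase_insert hη]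
      rw [bd_apply, Finset.compl_insert, ← Finset.add_sum_erase _ _ (Finset.mem_compl.2 hη),
        smul_add, smul_smul, sgn_sq, one_smul, Finset.smul_sum]
      simp only [smul_smul]
    rw [e1, add_left_comm, ← Finset.sum_add_distrib, add_eq_left]
    refine Finset.sum_eq_zero fun v hv => ?_
    have hv' : v ≠ w ∧ v ∉ η := by simpa using hv
    have e2 : (insert v (insert w η)).erase w = insert v η := by
      rw [Finset.insert_comm, Finset.erase_insert (by simp [hη, hv'.1.symm])]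
    simp only [hom, e2]
    rw [if_pos (by simp), smul_smul, sgn_anti hv'.1.symm hη hv'.2, ← add_smul]
    simp [mul_comm]
  · rw [Finset.sum_eq_single w]
    · simp [hom, hw, smul_smul, sgn_sq]
    · intro v _ hv
      simp [hom, hw, hv.symm]
    · simp [hw]

noncomputable def Eu (q : Pt) : Derivation ℝ Pl Pl := mkDerivation ℝ fun i => X i - C (q i)

theorem Eu_U (p : W → Pt) (q : Pt) (ψ : Finset W) :
    ∀ l ∈ U p ψ, Eu q l = l - algebraMap ℝ Pl (aeval q l) := by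
  rintro l ⟨⟨A, D, rfl⟩, -⟩
  simp [Eu, Fin.sum_univ_three, mkDerivation_X]
  ring

theorem U_insert (p : W → Pt) (w : W) (ψ : Finset W) (l : Pl) :
    l ∈ U p (insert w ψ) ↔ l ∈ U p ψ ∧ aeval (p w) l = 0 := by
  have : aeval (p w) l = eval (p w) l := rfl
  rw [this]
  constructor
  · exact fun h => ⟨⟨h.1, fun v hv => h.2 v (by simp [hv])⟩, h.2 w (by simp)⟩
  · rintro ⟨h, h'⟩
    refine ⟨h.1, fun v hv => ?_⟩
    rcases Finset.mem_insert.1 hv with rfl | hv
    · exact h'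
    · exact h.2 v hv

noncomputable def aff (φ : Pt →ₗ[ℝ] ℝ) (d : ℝ) : Pl := ∑ i, C (φ (Pi.single i 1)) * X i + C d

theorem eval_aff (φ : Pt →ₗ[ℝ] ℝ) (d : ℝ) (y : Pt) : eval y (aff φ d) = φ y + d := by
  have : φ y = ∑ i, φ (Pi.single i 1) * y i := by
    conv_lhs => rw [pi_eq_sum_univ' y]
    simp [mul_comm]
  simp [aff, this]

section Main
variable {Δ : Finset (Finset W)} {w : W} {p : W → Pt} (hΔ : IsCx Δ) (hw : {w} ∉ Δ)
  (hg : GenPos p w Δ)
include hΔ hg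

theorem not_mem_vs {ψ : Finset W} (hψ : ψ ∈ Δ) {x : W} (hx : x ∈ ψ) :
    p w - p x ∉ vectorSpan ℝ (p '' ψ) := by
  intro h
  have hx' : p x ∈ affineSpan ℝ (p '' ψ) := mem_affineSpan ℝ ⟨x, hx, rfl⟩
  refine hg ψ (fun v hv => hΔ.1 ψ hψ _ (by simpa using hv)) (fun ht => ?_) ?_
  · have h1 : vectorSpan ℝ (p '' ψ) = ⊤ := by
      rw [← direction_affineSpan, ht, AffineSubspace.direction_top]
    obtain ⟨n, hn⟩ : ∃ n, ψ.card = n + 1 :=
      Nat.exists_eq_succ_of_ne_zero (Finset.card_ne_zero.2 ⟨x, hx⟩)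
    have h2 := finrank_vectorSpan_image_finset_le ℝ p ψ hn
    rw [Finset.coe_image, h1] at h2
    have h3 := hΔ.2.1 ψ hψ
    simp at h2; omega
  · rw [← direction_affineSpan] at h
    simpa using AffineSubspace.vadd_mem_of_mem_direction h hx'

theorem ex_l0 {ψ : Finset W} (hψ : ψ ∈ Δ) : ∃ l ∈ U p ψ, aeval (p w) l = 1 := by
  rcases ψ.eq_empty_or_nonempty with rfl | ⟨x, hx⟩
  · exact ⟨1, ⟨⟨0, 1, by simp⟩, by simp⟩, by simp⟩
  obtain ⟨φ, h1, h2⟩ := Submodule.exists_dual_map_eq_bot_of_notMem (not_mem_vs hΔ hg hψ hx)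
    inferInstance
  refine ⟨(φ (p w - p x))⁻¹ • aff φ (-φ (p x)), Submodule.smul_mem _ _ ⟨⟨_, _, rfl⟩, fun v hv => ?_⟩,
    ?_⟩
  · rw [eval_aff, ← sub_eq_add_neg, ← map_sub, ← Submodule.mem_bot ℝ, ← h2]
    exact Submodule.mem_map_of_mem (vsub_mem_vectorSpan ℝ ⟨v, hv, rfl⟩ ⟨x, hx, rfl⟩)
  · have : aeval (p w) (aff φ (-φ (p x))) = eval (p w) (aff φ (-φ (p x))) := rfl
    rw [map_smul, this, eval_aff, ← sub_eq_add_neg, ← map_sub, smul_eq_mul, inv_mul_cancel₀ h1]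

theorem U_bot_iff {σ : Finset W} (hσ : σ ∈ Δ) (h3 : σ.card = 3) :
    U p (insert w σ) = ⊥ ↔ AffineIndependent ℝ (fun v : σ => p v) := by
  obtain ⟨x, hx⟩ : σ.Nonempty := Finset.card_pos.1 (by omega)
  have hr : Set.range (fun v : σ => p v) = p '' σ := by ext; simp
  have hn := Submodule.finrank_sup_span_singleton (not_mem_vs hΔ hg hσ hx)
  have key : U p (insert w σ) = ⊥ ↔
      vectorSpan ℝ (p '' σ) ⊔ Submodule.span ℝ {p w - p x} = ⊤ := by
    constructor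
    · intro h
      by_contra ht
      obtain ⟨φ, h1, h2⟩ := Submodule.exists_le_ker_of_lt_top _ (lt_top_iff_ne_top.2 ht)
      have : aff φ (-φ (p x)) ∈ U p (insert w σ) := by
        refine ⟨⟨_, _, rfl⟩, fun v hv => ?_⟩
        rw [eval_aff, ← sub_eq_add_neg, ← map_sub]
        apply h2
        rcases Finset.mem_insert.1 hv with rfl | hv
        · exact Submodule.mem_sup_right (Submodule.mem_span_singleton_self _)
        · exact Submodule.mem_sup_left (vsub_mem_vectorSpan ℝ ⟨v, hv, rfl⟩ ⟨x, hx, rfl⟩)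
      rw [h, Submodule.mem_bot] at this
      apply h1
      refine LinearMap.ext fun y => ?_
      have a := eval_aff φ (-φ (p x)) (y + p x)
      rw [this] at a
      simpa using a.symm
    · intro h
      rw [eq_bot_iff]
      rintro l ⟨⟨A, D, rfl⟩, hl⟩
      let φ : Pt →ₗ[ℝ] ℝ := ∑ i, A i • LinearMap.proj i
      have he : ∀ y, eval y (∑ i, C (A i) * X i + C D : Pl) = φ y + D := fun y => by simp [φ]
      have h0 : ∀ v ∈ insert w σ, ∀ u ∈ insert w σ, φ (p v - p u) = 0 := fun v hv u hu => by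
        have a := hl v hv
        have b := hl u hu
        rw [he] at a b
        rw [map_sub]; linarith
      have hk : ⊤ ≤ LinearMap.ker φ := by
        rw [← h, sup_le_iff, vectorSpan_def, Submodule.span_le, Submodule.span_le]
        constructor
        · rintro _ ⟨_, ⟨u, hu, rfl⟩, _, ⟨v, hv, rfl⟩, rfl⟩
          exact h0 u (by simp [show u ∈ σ from hu]) v (by simp [show v ∈ σ from hv])
        · rintro _ rfl
          exact h0 w (by simp) x (by simp [hx])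
      rw [Submodule.mem_bot]
      apply MvPolynomial.funext
      intro y
      have a := hl w (by simp)
      rw [he] at a ⊢
      rw [hk (Submodule.mem_top (x := y))]
      rw [hk (Submodule.mem_top (x := p w))] at a
      simpa using a
  rw [key, affineIndependent_iff_finrank_vectorSpan_eq ℝ _ (n := 2) (by simpa using h3), hr]
  constructor
  · intro h
    rw [h] at hn
    simp at hn; omega
  · intro h
    apply Submodule.eq_top_of_finrank_eq
    rw [hn, h]; simp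

noncomputable def Fm (s : ℕ) (p : W → Pt) (w : W) : (Finset W → Pl) →ₗ[ℝ] (Finset W → Pl) :=
  LinearMap.pi fun ψ => if w ∈ ψ then 0 else D (Eu (p w)) (s + 1) ∘ₗ LinearMap.proj ψ

omit hΔ hg in
theorem Fm_apply (s : ℕ) (c : Finset W → Pl) (ψ : Finset W) :
    Fm s p w c ψ = if w ∈ ψ then 0 else D (Eu (p w)) (s + 1) (c ψ) := by
  simp only [Fm, LinearMap.pi_apply]; split_ifs <;> rfl

omit hg in
theorem cone_cx : (∀ ψ ∈ cone w Δ, ∀ θ ⊆ ψ, θ ∈ cone w Δ) ∧ (∀ ψ ∈ cone w Δ, ψ.card ≤ 3) ∧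
    ∀ ψ ∈ cone w Δ, w ∉ ψ → ψ ∈ Δ := by
  simp only [cone, Finset.mem_union, Finset.mem_image, Finset.mem_filter]
  refine ⟨?_, ?_, ?_⟩
  · rintro ψ (h | ⟨η, ⟨h1, h2⟩, rfl⟩) θ hθ
    · exact Or.inl (hΔ.1 ψ h θ hθ)
    · have h3 : θ.erase w ⊆ η := Finset.subset_insert_iff.1 hθ
      by_cases h : w ∈ θ
      · exact Or.inr ⟨θ.erase w, ⟨hΔ.1 η h1 _ h3, (Finset.card_le_card h3).trans h2⟩,
          Finset.insert_erase h⟩
      · rw [Finset.erase_eq_of_notMem h] at h3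
        exact Or.inl (hΔ.1 η h1 _ h3)
  · rintro ψ (h | ⟨η, ⟨h1, h2⟩, rfl⟩)
    · exact hΔ.2.1 ψ h
    · exact (Finset.card_insert_le _ _).trans (by omega)
  · rintro ψ (h | ⟨η, ⟨h1, h2⟩, rfl⟩) h'
    · exact h
    · simp at h'

omit hg in
theorem Fm_mem (s k : ℕ) : ∀ b ∈ Ch (s + 1) p (cone w Δ) k, Fm s p w b ∈ Ch s p Δ k := by
  intro b hb
  rw [mem_Ch] at hb ⊢
  intro ψ
  rw [Fm_apply]
  split_ifs with h
  · simp
  · refine ⟨D_maps _ _ _ (Eu_U p _ ψ) s _ (hb ψ).1, fun h0 => ?_⟩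
    have := (hb ψ).2 (fun h1 => h0 (by rw [h1, map_zero]))
    exact ⟨(cone_cx hΔ).2.2 ψ this.1 h, this.2⟩

omit hΔ hg in
theorem Fm_bd (s k : ℕ) : ∀ b ∈ Ch (s + 1) p (cone w Δ) k, Fm s p w (bd b) = bd (Fm s p w b) := by
  intro b hb
  rw [mem_Ch] at hb
  funext θ
  rw [Fm_apply, bd_apply, bd_apply]
  split_ifs with h
  · exact (Finset.sum_eq_zero fun v _ => by simp [Fm_apply, h]).symm
  · rw [map_sum]
    refine Finset.sum_congr rfl fun v _ => ?_
    rw [map_smul, Fm_apply]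
    split_ifs with h1
    · obtain rfl : w = v := by simpa [h] using h1
      rw [D_ker _ (aeval (p w)) _ (Eu_U p _ _) (fun l hl => ((U_insert p w θ l).1 hl).2) _ _
        (hb _).1]
    · rfl

include hw

omit hg in
theorem w_not {ψ : Finset W} (h : ψ ∈ Δ) : w ∉ ψ := fun h' => hw (hΔ.1 ψ h _ (by simpa using h'))

theorem Fm_surj (s k : ℕ) (a : Finset W → Pl) (ha : a ∈ Ch s p Δ k) :
    ∃ b ∈ Ch (s + 1) p (cone w Δ) k, Fm s p w b = a := by
  rw [mem_Ch] at ha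
  have : ∀ ψ, ∃ f, (f ∈ U p ψ ^ (s + 1) ∧ (f ≠ 0 → ψ ∈ cone w Δ ∧ ψ.card = k)) ∧
      (if w ∈ ψ then 0 else D (Eu (p w)) (s + 1) f) = a ψ := by
    intro ψ
    by_cases h : a ψ = 0
    · exact ⟨0, by simp, by simp [h]⟩
    · obtain ⟨h1, h2⟩ := (ha ψ).2 h
      obtain ⟨l, hl, hl1⟩ := ex_l0 hΔ hg h1
      obtain ⟨f, hf, hf'⟩ := D_surj _ _ _ (Eu_U p _ ψ) l hl hl1 s _ (ha ψ).1
      exact ⟨f, ⟨hf, fun _ => ⟨Finset.mem_union_left _ h1, h2⟩⟩, by rw [if_neg (w_not hΔ hw h1), hf']⟩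
  choose b hb hb' using this
  exact ⟨b, mem_Ch.2 hb, funext fun ψ => by rw [Fm_apply, hb']⟩

omit hw in
theorem hom_mem (s k : ℕ)
    (H : k = 3 → ∀ σ ∈ Δ, σ.card = 3 → AffineIndependent ℝ (fun v : σ => p v))
    (c : Finset W → Pl) (hc : c ∈ Ch (s + 1) p (cone w Δ) k) (h0 : Fm s p w c = 0) :
    hom w c ∈ Ch (s + 1) p (cone w Δ) (k + 1) ∧ Fm s p w (hom w c) = 0 := by
  refine ⟨mem_Ch.2 fun ψ => ?_, funext fun ψ => ?_⟩
  · rw [mem_Ch] at hc
    unfold hom
    split_ifs with h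
    · obtain ⟨η, hη, rfl⟩ : ∃ η, w ∉ η ∧ ψ = insert w η :=
        ⟨ψ.erase w, by simp, (Finset.insert_erase h).symm⟩
      rw [Finset.erase_insert hη]
      by_cases h1 : c η = 0
      · simp [h1]
      obtain ⟨h2, h3⟩ := (hc η).2 h1
      have h4 := (cone_cx hΔ).2.2 η h2 hη
      obtain ⟨l, hl, hl1⟩ := ex_l0 hΔ hg h4
      have h5 := congrFun h0 η
      rw [Fm_apply, if_neg hη] at h5
      have h6 := D_exact _ _ _ (Eu_U p _ η) l hl hl1 _ (U_insert p w η) s _ (hc η).1 h5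
      refine ⟨Submodule.smul_mem _ _ h6, fun _ => ⟨?_, by rw [Finset.card_insert_of_notMem hη, h3]⟩⟩
      have h7 : η.card ≤ 2 := by
        by_contra h8
        have h9 : η.card = 3 := by have := hΔ.2.1 η h4; omega
        rw [(U_bot_iff hΔ hg h4 h9).2 (H (by omega) η h4 h9), pow_succ, Submodule.mul_bot] at h6
        exact h1 h6
      exact Finset.mem_union_right _ (Finset.mem_image_of_mem _ (Finset.mem_filter.2 ⟨h4, h7⟩))
    · simp
  · rw [Fm_apply]
    split_ifs with h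
    · rfl
    · simp [hom, h]

theorem cyc_surj (s k : ℕ) (hk : k ≤ 3) : ∀ a ∈ Ch s p Δ k, bd a = 0 →
    ∃ b ∈ Ch (s + 1) p (cone w Δ) k, bd b = 0 ∧ Fm s p w b = a := by
  intro a ha h0
  obtain ⟨b, hb, rfl⟩ := Fm_surj hΔ hw hg s k a ha
  rcases k with _ | j
  · exact ⟨b, hb, bd_zero hb, rfl⟩
  obtain ⟨h1, h2⟩ := hom_mem hΔ hg s j (by omega) _ (bd_mem (cone_cx hΔ).1 hb)
    (by rw [Fm_bd s _ b hb, h0])
  refine ⟨b - hom w (bd b), sub_mem hb h1, ?_, by rw [map_sub, h2, sub_zero]⟩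
  rw [← eq_sub_of_add_eq (bd_hom w b), bd_bd]

theorem betti_eq (s k : ℕ) (hk : k ≤ 3)
    (H : k = 3 → ∀ σ ∈ Δ, σ.card = 3 → AffineIndependent ℝ (fun v : σ => p v)) :
    betti s p Δ k = betti (s + 1) p (cone w Δ) k := by
  refine hdim_eq bd (Fm s p w) _ _ _ _ (Fm_mem hΔ s k) (Fm_mem hΔ s (k + 1)) (Fm_bd s k)
    (Fm_bd s (k + 1)) (cyc_surj hΔ hw hg s k hk) ?_
  rintro z hz h0 ⟨a, ha, h1⟩
  obtain ⟨b, hb, rfl⟩ := Fm_surj hΔ hw hg s _ a ha
  obtain ⟨h2, -⟩ := hom_mem hΔ hg s k H (z - bd b) (sub_mem hz (bd_mem (cone_cx hΔ).1 hb))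
    (by rw [map_sub, Fm_bd s _ b hb, h1, sub_self])
  refine ⟨b + hom w (z - bd b), add_mem hb h2, ?_⟩
  have h3 := bd_hom w (z - bd b)
  have h4 : hom w (0 : Finset W → Pl) = 0 := by funext ψ; simp [hom]
  rw [map_sub, h0, bd_bd, sub_zero, h4, add_zero] at h3
  rw [map_add, h3, add_sub_cancel]

theorem betti_lt (s : ℕ) {σ : Finset W} (hσ : σ ∈ Δ) (h3 : σ.card = 3)
    (hn : ¬AffineIndependent ℝ (fun v : σ => p v)) :
    betti s p Δ 3 < betti (s + 1) p (cone w Δ) 3 := by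
  have top : ∀ (t : ℕ) (Γ : Finset (Finset W)), (∀ ψ ∈ Γ, ψ.card ≤ 3) → Ch t p Γ 4 = ⊥ := by
    intro t Γ h
    rw [eq_bot_iff]
    intro c hc
    funext ψ
    by_contra h0
    obtain ⟨h1, h2⟩ := (mem_Ch.1 hc ψ).2 h0
    have := h ψ h1
    omega
  show hdim bd (Ch s p Δ 3) (Ch s p Δ 4) < hdim bd (Ch (s + 1) p (cone w Δ) 3) (Ch (s + 1) p _ 4)
  rw [top s Δ hΔ.2.1, top _ _ (cone_cx hΔ).2.1]
  obtain ⟨l, hl, hl0⟩ := Submodule.exists_mem_ne_zero_of_ne_bot
    (mt (U_bot_iff hΔ hg hσ h3).1 hn)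
  have hf := Submodule.pow_mem_pow _ hl (s + 1)
  let c : Finset W → Pl := Pi.single σ (l ^ (s + 1))
  have hc : c ∈ Ch (s + 1) p (cone w Δ) 3 := mem_Ch.2 fun ψ => by
    by_cases h : ψ = σ
    · subst h
      exact ⟨by simpa [c] using U_mono p (Finset.subset_insert w ψ) _ hf,
        fun _ => ⟨Finset.mem_union_left _ hσ, h3⟩⟩
    · simp [c, h]
  have hF : Fm s p w c = 0 := by
    funext ψ
    rw [Fm_apply]
    by_cases h : ψ = σ
    · subst h
      have := D_ker _ (aeval (p w)) _ (Eu_U p _ _) (fun l hl => ((U_insert p w ψ l).1 hl).2) _ _ hf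
      simp [c, this]
    · simp [c, h]
  obtain ⟨h1, h2⟩ := hom_mem hΔ hg s 2 (by omega) _ (bd_mem (cone_cx hΔ).1 hc)
    (by rw [Fm_bd s _ c hc, hF, map_zero])
  refine hdim_lt bd (Fm s p w) _ _ (Submodule.fg_pi fun ψ => ?_) (Fm_mem hΔ s 3) (Fm_bd s 3)
    (cyc_surj hΔ hw hg s 3 le_rfl) (c - hom w (bd c)) (sub_mem hc h1) ?_
    (by rw [map_sub, hF, h2, sub_zero]) fun h => ?_
  · split_ifs
    · rw [Is_eq, ← Module.Finite.iff_fg]
      exact Submodule.finiteDimensional_of_le (pow_le_restrict p ψ _)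
    · exact Submodule.fg_bot
  · rw [← eq_sub_of_add_eq (bd_hom w c), bd_bd]
  · have := congrFun h σ
    simp [c, hom, w_not hΔ hw hσ, hl0] at this

end Main

theorem result :
    (∀ (W : Type) [Fintype W] [LinearOrder W] (Δ : Finset (Finset W)) (w : W) (p : W → Pt) (s : ℕ),
      IsCx Δ → {w} ∉ Δ → GenPos p w Δ →
      (∀ k ≤ 2, betti s p Δ k = betti (s + 1) p (cone w Δ) k) ∧
      betti s p Δ 3 ≤ betti (s + 1) p (cone w Δ) 3 ∧
      (betti s p Δ 3 = betti (s + 1) p (cone w Δ) 3 ↔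
        ∀ σ ∈ Δ, σ.card = 3 → AffineIndependent ℝ (fun v : σ => p v))) ∧
    ∃ (Δ : Finset (Finset (Fin 4))) (w : Fin 4) (p : Fin 4 → Pt), IsCx Δ ∧ {w} ∉ Δ ∧
      Function.Injective p ∧ GenPos p w Δ ∧
      ∀ s, betti s p Δ 3 ≠ betti (s + 1) p (cone w Δ) 3 := by
  constructor
  · intro W _ _ Δ w p s hΔ hw hg
    refine ⟨fun k hk => betti_eq hΔ hw hg s k (by omega) (by omega), ?_, ?_, ?_⟩
    · by_cases H : ∀ σ ∈ Δ, σ.card = 3 → AffineIndependent ℝ (fun v : σ => p v)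
      · exact (betti_eq hΔ hw hg s 3 le_rfl fun _ => H).le
      · push Not at H
        obtain ⟨σ, h1, h2, h3⟩ := H
        exact (betti_lt hΔ hw hg s h1 h2 h3).le
    · intro h σ h1 h2
      by_contra h3
      exact (betti_lt hΔ hw hg s h1 h2 h3).ne h
    · exact fun H => betti_eq hΔ hw hg s 3 le_rfl fun _ => H
  · let p : Fin 4 → Pt := ![![0, 1, 0], ![0, 0, 0], ![1, 0, 0], ![2, 0, 0]]
    let σ : Finset (Fin 4) := {1, 2, 3}
    have hΔ : IsCx σ.powerset := ⟨fun ψ h θ h' => by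
      rw [Finset.mem_powerset] at h ⊢; exact h'.trans h, by decide, σ, by decide, by decide⟩
    have hw : {0} ∉ σ.powerset := by decide
    have hp : ∀ v ∈ σ, p v 1 = 0 ∧ p v 2 = 0 := by
      intro v hv
      fin_cases v
      · exact absurd hv (by decide)
      all_goals simp [p]
    have hg : GenPos p 0 σ.powerset := by
      intro T hT _ h
      let L : Submodule ℝ Pt := LinearMap.ker (LinearMap.proj 1)
      have : affineSpan ℝ (p '' T) ≤ L.toAffineSubspace := by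
        rw [affineSpan_le]
        rintro _ ⟨v, hv, rfl⟩
        exact (hp v (by simpa using hT v hv)).1
      have := this h
      simp [L, p] at this
    refine ⟨σ.powerset, 0, p, hΔ, hw, ?_, hg, fun s => (betti_lt hΔ hw hg s (σ := σ) (by decide)
      (by decide) ?_).ne⟩
    · intro a b h
      have h0 := congrFun h 0
      have h1 := congrFun h 1
      fin_cases a <;> fin_cases b <;> simp [p] at h0 h1 ⊢
    · rw [← finrank_vectorSpan_le_iff_not_affineIndependent ℝ _ (n := 1) (by decide)]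
      have : vectorSpan ℝ (Set.range fun v : σ => p v) ≤ Submodule.span ℝ {![1, 0, 0]} := by
        rw [vectorSpan_def, Submodule.span_le]
        rintro _ ⟨_, ⟨u, rfl⟩, _, ⟨v, rfl⟩, rfl⟩
        refine Submodule.mem_span_singleton.2 ⟨p u 0 - p v 0, ?_⟩
        funext i
        fin_cases i <;> simp [hp u u.2, hp v v.2]
      exact (Submodule.finrank_mono this).trans (by simpa using finrank_span_le_card {![1, 0, 0]})

end Pool.Agent.Results.MP_9cf723_co.Cone
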